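import Mathlib

/-!
# Disconnected sets of polynomials fixed by the root counts of all derivatives

For `d = 3` and the root counts `((1,0), (2,0), (1,0))` the set `R_{4,3}(τ)` is non-empty and
disconnected: the value of the cubic at the smaller critical point is a continuous function which
does not vanish on the set and takes both signs on it. For larger `d` the two separated points are
lifted by taking antiderivatives with a very negative constant term.
-/

set_option autoImplicit false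

namespace Pool.Agent.Results.MP_5207c4_ag.Disconnected

open Polynomial

/-- The monic polynomial `x^d + ∑ a_j x^j` with coefficient vector `a`. -/
noncomputable def Q (d : ℕ) (a : Fin d → ℝ) : ℝ[X] := X ^ d + ∑ j : Fin d, C (a j) * X ^ (j : ℕ)

/-- The set `Δ_j` of all `a` for which the derivative of order `d - j` of `Q d a` has a multiple
real root. -/
def Delta (d j : ℕ) : Set (Fin d → ℝ) :=
  {a | ∃ x : ℝ, 2 ≤ (derivative^[d - j] (Q d a)).rootMultiplicity x}

/-- The set `R_{4,d}`. -/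
def R4 (d : ℕ) : Set (Fin d → ℝ) :=
  {a | (∀ j, 1 ≤ j → j ≤ d → a ∉ Delta d j) ∧ ∀ j, a j ≠ 0}

/-- The number of positive roots. -/
noncomputable def pos (p : ℝ[X]) : ℕ := {x : ℝ | 0 < x ∧ p.IsRoot x}.ncard

/-- The number of negative roots. -/
noncomputable def neg (p : ℝ[X]) : ℕ := {x : ℝ | x < 0 ∧ p.IsRoot x}.ncard

/-- The set `R_{4,d}(τ)`: the elements of `R_{4,d}` for which the derivative of order `ℓ` has
`(τ ℓ).1` positive and `(τ ℓ).2` negative roots, for `ℓ = 0, …, d - 1`. -/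
def R4tau (d : ℕ) (τ : Fin d → ℕ × ℕ) : Set (Fin d → ℝ) :=
  {a | a ∈ R4 d ∧ ∀ ℓ : Fin d,
    (pos (derivative^[(ℓ : ℕ)] (Q d a)), neg (derivative^[(ℓ : ℕ)] (Q d a))) = τ ℓ}

/-- The tuple of root counts. -/
def tau : Fin 3 → ℕ × ℕ := ![(1, 0), (2, 0), (1, 0)]

theorem Q_three (a : Fin 3 → ℝ) : Q 3 a = X ^ 3 + C (a 2) * X ^ 2 + C (a 1) * X + C (a 0) := by
  simp only [Q, Fin.sum_univ_three]
  simp
  ring

theorem dQ (a : Fin 3 → ℝ) : derivative (Q 3 a) = C 3 * X ^ 2 + C (2 * a 2) * X + C (a 1) := by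
  rw [Q_three]
  simp only [derivative_add, derivative_mul, derivative_C, derivative_X, derivative_X_pow]
  simp
  ring

theorem ddQ (a : Fin 3 → ℝ) : derivative (derivative (Q 3 a)) = C 6 * X + C (2 * a 2) := by
  rw [dQ]
  simp only [derivative_add, derivative_mul, derivative_C, derivative_X, derivative_X_pow]
  have h6 : (C 6 : ℝ[X]) = C 3 * C 2 := by rw [← C_mul]; norm_num
  rw [h6]
  simp
  ring

theorem isRoot_Q (a : Fin 3 → ℝ) (x : ℝ) :
    (Q 3 a).IsRoot x ↔ x ^ 3 + a 2 * x ^ 2 + a 1 * x + a 0 = 0 := by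
  rw [Q_three, IsRoot.def]
  simp

theorem isRoot_dQ (a : Fin 3 → ℝ) (x : ℝ) :
    (derivative (Q 3 a)).IsRoot x ↔ 3 * x ^ 2 + 2 * a 2 * x + a 1 = 0 := by
  rw [dQ, IsRoot.def]
  simp

theorem isRoot_ddQ (a : Fin 3 → ℝ) (x : ℝ) :
    (derivative (derivative (Q 3 a))).IsRoot x ↔ 6 * x + 2 * a 2 = 0 := by
  rw [ddQ, IsRoot.def]
  simp

theorem dddQ (a : Fin 3 → ℝ) : derivative (derivative (derivative (Q 3 a))) = C 6 := by
  rw [ddQ]
  simp

theorem Q_ne (a : Fin 3 → ℝ) : Q 3 a ≠ 0 := by
  intro h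
  have := dddQ a
  rw [h] at this
  simp only [derivative_zero] at this
  have h6 : (6 : ℝ) = 0 := by
    apply C_injective (R := ℝ)
    rw [← this, C_0]
  norm_num at h6

theorem dQ_ne (a : Fin 3 → ℝ) : derivative (Q 3 a) ≠ 0 := by
  intro h
  have := dddQ a
  rw [h] at this
  simp only [derivative_zero] at this
  have h6 : (6 : ℝ) = 0 := by
    apply C_injective (R := ℝ)
    rw [← this, C_0]
  norm_num at h6

theorem ddQ_ne (a : Fin 3 → ℝ) : derivative (derivative (Q 3 a)) ≠ 0 := by
  intro h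
  have := dddQ a
  rw [h] at this
  simp only [derivative_zero] at this
  have h6 : (6 : ℝ) = 0 := by
    apply C_injective (R := ℝ)
    rw [← this, C_0]
  norm_num at h6

/-- A double root of the cubic is excluded on `R_{4,3}`. -/
theorem no_double {a : Fin 3 → ℝ} (ha : a ∈ R4 3) (x : ℝ) (h1 : (Q 3 a).IsRoot x)
    (h2 : (derivative (Q 3 a)).IsRoot x) : False := by
  apply ha.1 3 (by norm_num) le_rfl
  refine ⟨x, ?_⟩
  exact (one_lt_rootMultiplicity_iff_isRoot (p := Q 3 a) (Q_ne a)).2 ⟨h1, h2⟩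

/-- Criterion for being an element of `R_{4,3}`. -/
theorem mem_R4 (a : Fin 3 → ℝ) (h0 : ∀ j, a j ≠ 0)
    (h1 : ∀ x, (Q 3 a).IsRoot x → (derivative (Q 3 a)).IsRoot x → False)
    (h2 : ∀ x, (derivative (Q 3 a)).IsRoot x → (derivative (derivative (Q 3 a))).IsRoot x → False) :
    a ∈ R4 3 := by
  refine ⟨fun j hj1 hj3 => ?_, h0⟩
  rintro ⟨x, hx⟩
  have : j = 1 ∨ j = 2 ∨ j = 3 := by omega
  rcases this with rfl | rfl | rfl
  · have := (one_lt_rootMultiplicity_iff_isRoot (p := derivative (derivative (Q 3 a)))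
      (ddQ_ne a)).1 hx
    have h3 := this.2
    rw [dddQ, IsRoot.def, eval_C] at h3
    norm_num at h3
  · have := (one_lt_rootMultiplicity_iff_isRoot (p := derivative (Q 3 a)) (dQ_ne a)).1 hx
    exact h2 x this.1 this.2
  · have := (one_lt_rootMultiplicity_iff_isRoot (p := Q 3 a) (Q_ne a)).1 hx
    exact h1 x this.1 this.2

/-- The smaller critical point. -/
noncomputable def crit (a : Fin 3 → ℝ) : ℝ := (-a 2 - Real.sqrt (a 2 ^ 2 - 3 * a 1)) / 3

/-- The value at the smaller critical point. -/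
noncomputable def val (a : Fin 3 → ℝ) : ℝ :=
  crit a ^ 3 + a 2 * crit a ^ 2 + a 1 * crit a + a 0

theorem continuous_val : Continuous val := by
  unfold val crit
  fun_prop

theorem val_ne {a : Fin 3 → ℝ} (ha : a ∈ R4tau 3 tau) : val a ≠ 0 := by
  intro hv
  have hc := ha.2 1
  have hpos : pos (derivative (Q 3 a)) = 2 := by
    have := congrArg Prod.fst hc
    simpa [tau] using this
  have hne : {x : ℝ | 0 < x ∧ (derivative (Q 3 a)).IsRoot x}.Nonempty := by
    apply Set.nonempty_of_ncard_ne_zero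
    change pos (derivative (Q 3 a)) ≠ 0
    rw [hpos]
    norm_num
  obtain ⟨x, -, hx⟩ := hne
  rw [isRoot_dQ] at hx
  have hdisc : 0 ≤ a 2 ^ 2 - 3 * a 1 := by nlinarith [sq_nonneg (3 * x + a 2)]
  have hs := Real.sq_sqrt hdisc
  refine no_double ha.1 (crit a) ?_ ?_
  · rw [isRoot_Q]
    exact hv
  · rw [isRoot_dQ]
    unfold crit
    nlinarith

/-- First point. -/
noncomputable def pA : Fin 3 → ℝ := ![-79 / 8, 24, -9]

/-- Second point. -/
noncomputable def pB : Fin 3 → ℝ := ![-36, 24, -9]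

theorem rootA (x : ℝ) : (Q 3 pA).IsRoot x ↔ x = 1 / 2 := by
  rw [isRoot_Q]
  simp only [pA, Matrix.cons_val]
  constructor
  · intro h
    have : (x - 1 / 2) * (x ^ 2 - 17 / 2 * x + 79 / 4) = 0 := by linarith
    rcases mul_eq_zero.1 this with h | h
    · linarith
    · nlinarith [sq_nonneg (x - 17 / 4)]
  · rintro rfl
    norm_num

theorem rootB (x : ℝ) : (Q 3 pB).IsRoot x ↔ x = 6 := by
  rw [isRoot_Q]
  simp only [pB, Matrix.cons_val]
  constructor
  · intro h
    have : (x - 6) * (x ^ 2 - 3 * x + 6) = 0 := by linarith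
    rcases mul_eq_zero.1 this with h | h
    · linarith
    · nlinarith [sq_nonneg (x - 3 / 2)]
  · rintro rfl
    norm_num

theorem droot (a : Fin 3 → ℝ) (h1 : a 1 = 24) (h2 : a 2 = -9) (x : ℝ) :
    (derivative (Q 3 a)).IsRoot x ↔ x = 2 ∨ x = 4 := by
  rw [isRoot_dQ, h1, h2]
  constructor
  · intro h
    have : (x - 2) * (x - 4) = 0 := by linarith
    rcases mul_eq_zero.1 this with h | h
    · left; linarith
    · right; linarith
  · rintro (rfl | rfl) <;> norm_num

theorem ddroot (a : Fin 3 → ℝ) (h2 : a 2 = -9) (x : ℝ) :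
    (derivative (derivative (Q 3 a))).IsRoot x ↔ x = 3 := by
  rw [isRoot_ddQ, h2]
  constructor
  · intro h; linarith
  · rintro rfl; norm_num

theorem mem_tau (a : Fin 3 → ℝ) (r : ℝ) (h0 : a 0 ≠ 0) (h1 : a 1 = 24) (h2 : a 2 = -9)
    (hr : 0 < r) (hr2 : r ≠ 2) (hr4 : r ≠ 4) (hroot : ∀ x, (Q 3 a).IsRoot x ↔ x = r) :
    a ∈ R4tau 3 tau := by
  have hpos0 : pos (Q 3 a) = 1 := by
    have : {x : ℝ | 0 < x ∧ (Q 3 a).IsRoot x} = {r} := by
      ext x
      simp only [hroot, Set.mem_ofPred_eq, Set.mem_singleton_iff]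
      constructor
      · exact fun h => h.2
      · rintro rfl
        exact ⟨hr, rfl⟩
    rw [pos, this, Set.ncard_singleton]
  have hneg0 : neg (Q 3 a) = 0 := by
    have : {x : ℝ | x < 0 ∧ (Q 3 a).IsRoot x} = ∅ := by
      ext x
      simp only [hroot, Set.mem_ofPred_eq, Set.mem_empty_iff_false, iff_false]
      rintro ⟨h, rfl⟩
      linarith
    rw [neg, this, Set.ncard_empty]
  have hpos1 : pos (derivative (Q 3 a)) = 2 := by
    have : {x : ℝ | 0 < x ∧ (derivative (Q 3 a)).IsRoot x} = {2, 4} := by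
      ext x
      simp only [droot a h1 h2, Set.mem_ofPred_eq, Set.mem_insert_iff, Set.mem_singleton_iff]
      constructor
      · exact fun h => h.2
      · rintro (rfl | rfl) <;> norm_num
    rw [pos, this, Set.ncard_pair (by norm_num)]
  have hneg1 : neg (derivative (Q 3 a)) = 0 := by
    have : {x : ℝ | x < 0 ∧ (derivative (Q 3 a)).IsRoot x} = ∅ := by
      ext x
      simp only [droot a h1 h2, Set.mem_ofPred_eq, Set.mem_empty_iff_false, iff_false]
      rintro ⟨h, (rfl | rfl)⟩ <;> norm_num at h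
    rw [neg, this, Set.ncard_empty]
  have hpos2 : pos (derivative (derivative (Q 3 a))) = 1 := by
    have : {x : ℝ | 0 < x ∧ (derivative (derivative (Q 3 a))).IsRoot x} = {3} := by
      ext x
      simp only [ddroot a h2, Set.mem_ofPred_eq, Set.mem_singleton_iff]
      constructor
      · exact fun h => h.2
      · rintro rfl
        norm_num
    rw [pos, this, Set.ncard_singleton]
  have hneg2 : neg (derivative (derivative (Q 3 a))) = 0 := by
    have : {x : ℝ | x < 0 ∧ (derivative (derivative (Q 3 a))).IsRoot x} = ∅ := by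
      ext x
      simp only [ddroot a h2, Set.mem_ofPred_eq, Set.mem_empty_iff_false, iff_false]
      rintro ⟨h, rfl⟩
      norm_num at h
    rw [neg, this, Set.ncard_empty]
  refine ⟨mem_R4 a ?_ ?_ ?_, ?_⟩
  · intro j
    fin_cases j
    · exact h0
    · change a 1 ≠ 0
      rw [h1]; norm_num
    · change a 2 ≠ 0
      rw [h2]; norm_num
  · intro x hx hx'
    rw [hroot] at hx
    rw [droot a h1 h2] at hx'
    subst hx
    rcases hx' with h | h
    · exact hr2 h
    · exact hr4 h
  · intro x hx hx'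
    rw [droot a h1 h2] at hx
    rw [ddroot a h2] at hx'
    subst hx'
    norm_num at hx
  · intro ℓ
    fin_cases ℓ
    · change (pos (Q 3 a), neg (Q 3 a)) = (1, 0)
      rw [hpos0, hneg0]
    · change (pos (derivative (Q 3 a)), neg (derivative (Q 3 a))) = (2, 0)
      rw [hpos1, hneg1]
    · change (pos (derivative (derivative (Q 3 a))), neg (derivative (derivative (Q 3 a)))) = (1, 0)
      rw [hpos2, hneg2]

theorem crit_eq (a : Fin 3 → ℝ) (h1 : a 1 = 24) (h2 : a 2 = -9) : crit a = 2 := by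
  unfold crit
  rw [h1, h2, show ((-9 : ℝ) ^ 2 - 3 * 24) = 3 ^ 2 by norm_num, Real.sqrt_sq (by norm_num)]
  norm_num

/-- The statement proved by induction: two points of some `R_{4,d}(τ)` which are not both contained
in a preconnected subset. -/
def Claim (d : ℕ) : Prop :=
  ∃ τ : Fin d → ℕ × ℕ, ∃ A ∈ R4tau d τ, ∃ B ∈ R4tau d τ,
    ∀ S ⊆ R4tau d τ, IsPreconnected S → A ∈ S → B ∉ S

theorem claim_three : Claim 3 := by
  have hA : pA ∈ R4tau 3 tau :=
    mem_tau pA (1 / 2) (by simp [pA]) rfl rfl (by norm_num) (by norm_num) (by norm_num) rootA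
  have hB : pB ∈ R4tau 3 tau :=
    mem_tau pB 6 (by simp [pB]) rfl rfl (by norm_num) (by norm_num) (by norm_num) rootB
  refine ⟨tau, pA, hA, pB, hB, fun S hS hpre hAS hBS => ?_⟩
  have himg := hpre.image val continuous_val.continuousOn
  have h1 : 0 < val pA := by
    unfold val
    rw [crit_eq pA rfl rfl]
    simp only [pA, Matrix.cons_val]
    norm_num
  have h2 : val pB < 0 := by
    unfold val
    rw [crit_eq pB rfl rfl]
    simp only [pB, Matrix.cons_val]
    norm_num
  have h0 : (0 : ℝ) ∈ val '' S :=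
    himg.Icc_subset ⟨pB, hBS, rfl⟩ ⟨pA, hAS, rfl⟩ ⟨h2.le, h1.le⟩
  obtain ⟨a, ha, hv⟩ := h0
  exact val_ne (hS ha) hv

/-- Coefficients of the normalized derivative. -/
noncomputable def proj (d : ℕ) (b : Fin (d + 1) → ℝ) : Fin d → ℝ :=
  fun j => (((j : ℕ) : ℝ) + 1) * b j.succ / ((d : ℝ) + 1)

/-- Coefficients of the normalized antiderivative with constant term `c`. -/
noncomputable def lift (d : ℕ) (c : ℝ) (a : Fin d → ℝ) : Fin (d + 1) → ℝ :=
  Fin.cons c fun j => ((d : ℝ) + 1) * a j / (((j : ℕ) : ℝ) + 1)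

theorem proj_lift (d : ℕ) (c : ℝ) (a : Fin d → ℝ) : proj d (lift d c a) = a := by
  funext j
  have h1 : ((d : ℝ) + 1) ≠ 0 := by positivity
  have h2 : (((j : ℕ) : ℝ) + 1) ≠ 0 := by positivity
  simp only [proj, lift, Fin.cons_succ]
  field_simp

theorem continuous_proj (d : ℕ) : Continuous (proj d) := by
  unfold proj
  fun_prop

theorem derivative_Q (d : ℕ) (b : Fin (d + 1) → ℝ) :
    derivative (Q (d + 1) b) = C ((d : ℝ) + 1) * Q d (proj d b) := by
  have h1 : ((d : ℝ) + 1) ≠ 0 := by positivity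
  simp only [Q, Fin.sum_univ_succ, derivative_add, derivative_X_pow, derivative_sum,
    derivative_C_mul, Fin.val_zero, pow_zero, mul_one, derivative_C, zero_add,
    Fin.val_succ, Nat.add_sub_cancel]
  rw [mul_add, Finset.mul_sum]
  congr 1
  · push_cast
    rfl
  · refine Finset.sum_congr rfl fun j _ => ?_
    simp only [proj]
    rw [← mul_assoc, ← mul_assoc, ← C_mul, ← C_mul]
    congr 2
    push_cast
    field_simp

theorem Q_lift (d : ℕ) (c : ℝ) (a : Fin d → ℝ) :
    Q (d + 1) (lift d c a) = Q (d + 1) (lift d 0 a) + C c := by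
  simp only [Q, Fin.sum_univ_succ, lift, Fin.cons_zero, Fin.cons_succ]
  simp
  ring

theorem monic_Q (d : ℕ) (a : Fin d → ℝ) : (Q d a).Monic := by
  unfold Q
  apply monic_X_pow_add
  refine (degree_sum_le _ _).trans_lt ?_
  refine (Finset.sup_lt_iff (WithBot.bot_lt_coe d)).2 ?_
  intro j _
  refine (degree_C_mul_X_pow_le _ _).trans_lt ?_
  exact WithBot.coe_lt_coe.2 j.2

theorem natDegree_Q (d : ℕ) (a : Fin d → ℝ) : (Q d a).natDegree = d := by
  unfold Q
  rw [natDegree_add_eq_left_of_degree_lt]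
  · simp
  · rw [degree_X_pow]
    refine (degree_sum_le _ _).trans_lt ?_
    refine (Finset.sup_lt_iff (WithBot.bot_lt_coe d)).2 ?_
    intro j _
    refine (degree_C_mul_X_pow_le _ _).trans_lt ?_
    exact WithBot.coe_lt_coe.2 j.2

theorem isRoot_C_mul {k : ℝ} (hk : k ≠ 0) (p : ℝ[X]) (x : ℝ) :
    (C k * p).IsRoot x ↔ p.IsRoot x := by
  simp [IsRoot.def, hk]

theorem rootMultiplicity_C_mul' {k : ℝ} (hk : k ≠ 0) (p : ℝ[X]) (x : ℝ) :
    (C k * p).rootMultiplicity x = p.rootMultiplicity x := by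
  by_cases hp : p = 0
  · simp [hp]
  · rw [rootMultiplicity_mul (mul_ne_zero (C_ne_zero.2 hk) hp), rootMultiplicity_C, zero_add]

theorem iterate_succ_Q (d k : ℕ) (b : Fin (d + 1) → ℝ) :
    derivative^[k + 1] (Q (d + 1) b) = C ((d : ℝ) + 1) * derivative^[k] (Q d (proj d b)) := by
  rw [Function.iterate_succ_apply, derivative_Q, iterate_derivative_C_mul]

theorem pos_C_mul {k : ℝ} (hk : k ≠ 0) (p : ℝ[X]) : pos (C k * p) = pos p := by
  unfold pos
  simp only [isRoot_C_mul hk]

theorem neg_C_mul {k : ℝ} (hk : k ≠ 0) (p : ℝ[X]) : neg (C k * p) = neg p := by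
  unfold neg
  simp only [isRoot_C_mul hk]

theorem proj_mem {d : ℕ} {τ0 : ℕ × ℕ} {τ : Fin d → ℕ × ℕ} {b : Fin (d + 1) → ℝ}
    (hb : b ∈ R4tau (d + 1) (Fin.cons τ0 τ)) : proj d b ∈ R4tau d τ := by
  have hd : ((d : ℝ) + 1) ≠ 0 := by positivity
  refine ⟨⟨fun j hj1 hj2 => ?_, fun j => ?_⟩, fun ℓ => ?_⟩
  · rintro ⟨x, hx⟩
    apply hb.1.1 j hj1 (by omega)
    refine ⟨x, ?_⟩
    rw [show d + 1 - j = (d - j) + 1 by omega, iterate_succ_Q, rootMultiplicity_C_mul' hd]
    exact hx
  · have h1 := hb.1.2 j.succ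
    have h2 : (((j : ℕ) : ℝ) + 1) ≠ 0 := by positivity
    simp only [proj]
    positivity
  · have h1 := hb.2 ℓ.succ
    rw [Fin.cons_succ, Fin.val_succ, iterate_succ_Q, pos_C_mul hd, neg_C_mul hd] at h1
    exact h1

theorem lift_mem {d : ℕ} {τ0 : ℕ × ℕ} {τ : Fin d → ℕ × ℕ} {a : Fin d → ℝ} {c : ℝ}
    (ha : a ∈ R4tau d τ) (hc : c ≠ 0)
    (h1 : ∀ x, (Q (d + 1) (lift d c a)).IsRoot x → ¬ (Q d a).IsRoot x)
    (h2 : (pos (Q (d + 1) (lift d c a)), neg (Q (d + 1) (lift d c a))) = τ0) :
    lift d c a ∈ R4tau (d + 1) (Fin.cons τ0 τ) := by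
  have hd : ((d : ℝ) + 1) ≠ 0 := by positivity
  refine ⟨⟨fun j hj1 hj2 => ?_, fun j => ?_⟩, fun ℓ => ?_⟩
  · rintro ⟨x, hx⟩
    rcases Nat.lt_or_ge j (d + 1) with hj | hj
    · apply ha.1.1 j hj1 (by omega)
      refine ⟨x, ?_⟩
      rw [show d + 1 - j = (d - j) + 1 by omega, iterate_succ_Q, rootMultiplicity_C_mul' hd,
        proj_lift] at hx
      exact hx
    · have hj' : d + 1 - j = 0 := by omega
      rw [hj', Function.iterate_zero_apply] at hx
      have h3 := (one_lt_rootMultiplicity_iff_isRoot (p := Q (d + 1) (lift d c a))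
        (monic_Q _ _).ne_zero).1 hx
      apply h1 x h3.1
      have h4 := h3.2
      rw [derivative_Q, isRoot_C_mul hd, proj_lift] at h4
      exact h4
  · refine Fin.cases ?_ (fun i => ?_) j
    · simpa [lift] using hc
    · have h3 := ha.1.2 i
      have h4 : (((i : ℕ) : ℝ) + 1) ≠ 0 := by positivity
      simp only [lift, Fin.cons_succ]
      positivity
  · refine Fin.cases ?_ (fun i => ?_) ℓ
    · rw [Fin.cons_zero]
      exact h2
    · have h3 := ha.2 i
      rw [Fin.cons_succ, Fin.val_succ, iterate_succ_Q, pos_C_mul hd, neg_C_mul hd, proj_lift]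
      exact h3

/-- Root counts of a polynomial with very negative constant term. -/
theorem exists_const {d : ℕ} (hd0 : 0 < d) (a : Fin d → ℝ) :
    ∃ c : ℝ, c ≠ 0 ∧ (∀ x, (Q (d + 1) (lift d c a)).IsRoot x → ¬ (Q d a).IsRoot x) ∧
      (pos (Q (d + 1) (lift d c a)), neg (Q (d + 1) (lift d c a)))
        = (1, if Odd d then 1 else 0) := by
  set p := Q d a with hp
  set G := Q (d + 1) (lift d 0 a) with hG
  have hdp : ((d : ℝ) + 1) > 0 := by positivity
  have hdeg : 0 < p.degree := by
    rw [← natDegree_pos_iff_degree_pos, natDegree_Q]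
    exact hd0
  have hdegG : 0 < G.degree := by
    rw [← natDegree_pos_iff_degree_pos, natDegree_Q]
    omega
  have htop : Filter.Tendsto (fun x => eval x p) Filter.atTop Filter.atTop :=
    p.tendsto_atTop_of_leadingCoeff_nonneg hdeg (by rw [(monic_Q d a).leadingCoeff]; norm_num)
  have htopG : Filter.Tendsto (fun x => eval x G) Filter.atTop Filter.atTop :=
    G.tendsto_atTop_of_leadingCoeff_nonneg hdegG (by rw [(monic_Q _ _).leadingCoeff]; norm_num)
  -- behaviour at minus infinity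
  have hlead : ∀ (q : ℝ[X]) (m : ℕ), q.Monic → q.natDegree = m → 0 < m →
      Filter.Tendsto (fun x => (-1) ^ m * eval (-x) q) Filter.atTop Filter.atTop := by
    intro q m hq hm h0
    have h1 : (fun x : ℝ => (-1) ^ m * eval (-x) q)
        = fun x => eval x (C ((-1) ^ m) * q.comp (-X)) := by
      funext x
      simp
    rw [h1]
    have hne : ((-1 : ℝ) ^ m) ≠ 0 := pow_ne_zero _ (by norm_num)
    have hnd : (C ((-1 : ℝ) ^ m) * q.comp (-X)).natDegree = m := by
      rw [natDegree_C_mul hne, natDegree_comp, natDegree_neg, natDegree_X, mul_one, hm]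
    refine tendsto_atTop_of_leadingCoeff_nonneg _ ?_ ?_
    · rw [← natDegree_pos_iff_degree_pos, hnd]
      exact h0
    · rw [leadingCoeff_mul, leadingCoeff_C, leadingCoeff_comp (by simp), hq.leadingCoeff, hm,
        leadingCoeff_neg, leadingCoeff_X, one_mul, ← mul_pow]
      norm_num
  have hbot := hlead p d (monic_Q d a) (natDegree_Q d a) hd0
  have hbotG := hlead G (d + 1) (monic_Q _ _) (natDegree_Q _ _) (by omega)
  obtain ⟨R₁, hR₁⟩ := Filter.eventually_atTop.1 (htop.eventually (Filter.eventually_gt_atTop 0))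
  obtain ⟨R₂, hR₂⟩ := Filter.eventually_atTop.1 (hbot.eventually (Filter.eventually_gt_atTop 0))
  set R := max (max R₁ R₂) 1 with hR
  have hR1 : R₁ ≤ R := (le_max_left _ _).trans (le_max_left _ _)
  have hR2 : R₂ ≤ R := (le_max_right _ _).trans (le_max_left _ _)
  have hRpos : 0 < R := lt_of_lt_of_le one_pos (le_max_right _ _)
  have hpR : ∀ x, R ≤ x → 0 < eval x p := fun x hx => hR₁ x (hR1.trans hx)
  have hpR' : ∀ x, R ≤ x → 0 < (-1) ^ d * eval (-x) p := fun x hx => hR₂ x (hR2.trans hx)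
  obtain ⟨M, hM⟩ := (isCompact_Icc (a := -R) (b := R)).exists_bound_of_continuousOn
    (f := fun x => eval x G) G.continuous.continuousOn
  set c := -(|M| + 1) with hc
  have hcneg : c < 0 := by
    have := abs_nonneg M
    rw [hc]
    linarith
  set P := Q (d + 1) (lift d c a) with hP
  have hPG : ∀ x, eval x P = eval x G + c := by
    intro x
    rw [hP, Q_lift, eval_add, eval_C]
  have hPneg : ∀ x, -R ≤ x → x ≤ R → eval x P < 0 := by
    intro x h1 h2
    have h3 := hM x ⟨h1, h2⟩
    rw [Real.norm_eq_abs] at h3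
    have h4 := le_abs_self (eval x G)
    have h5 := le_abs_self M
    rw [hPG, hc]
    linarith
  have hPder : ∀ x, deriv (fun y => eval y P) x = ((d : ℝ) + 1) * eval x p := by
    intro x
    rw [Polynomial.deriv, hP, derivative_Q, proj_lift, eval_mul, eval_C]
  have hPmono : StrictMonoOn (fun y => eval y P) (Set.Ici R) := by
    refine strictMonoOn_of_deriv_pos (convex_Ici R) P.continuous.continuousOn fun x hx => ?_
    rw [interior_Ici] at hx
    rw [hPder]
    exact mul_pos hdp (hpR x (le_of_lt hx))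
  have hPtop : Filter.Tendsto (fun x => eval x P) Filter.atTop Filter.atTop := by
    simp only [hPG]
    exact Filter.tendsto_atTop_add_const_right _ _ htopG
  -- root on the right
  obtain ⟨x₀, hx₀R, hx₀⟩ : ∃ x₀, R < x₀ ∧ eval x₀ P = 0 := by
    obtain ⟨y, hy, hyR⟩ := ((hPtop.eventually (Filter.eventually_gt_atTop 0)).and
      (Filter.eventually_gt_atTop R)).exists
    have := intermediate_value_Icc hyR.le (P.continuous.continuousOn (s := Set.Icc R y))
    obtain ⟨x₀, hx₀, h0⟩ := this ⟨(hPneg R (by linarith) le_rfl).le, hy.le⟩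
    refine ⟨x₀, lt_of_le_of_ne hx₀.1 ?_, h0⟩
    rintro rfl
    have := hPneg R (by linarith) le_rfl
    change eval R P = 0 at h0
    linarith
  have hnot : ∀ x, P.IsRoot x → ¬ p.IsRoot x := by
    intro x hx hx'
    rw [IsRoot.def] at hx hx'
    by_cases h1 : R ≤ x
    · exact (hpR x h1).ne' hx'
    · by_cases h2 : x ≤ -R
      · have h3 := hpR' (-x) (by linarith)
        rw [neg_neg, hx', mul_zero] at h3
        exact lt_irrefl _ h3
      · push Not at h1 h2
        exact (hPneg x h2.le h1.le).ne hx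
  refine ⟨c, hcneg.ne, hnot, ?_⟩
  have hposset : {x : ℝ | 0 < x ∧ P.IsRoot x} = {x₀} := by
    ext x
    simp only [Set.mem_ofPred_eq, Set.mem_singleton_iff, IsRoot.def]
    constructor
    · rintro ⟨hx, hx0⟩
      by_cases h1 : R ≤ x
      · exact hPmono.injOn h1 hx₀R.le (by simp only [hx0, hx₀])
      · push Not at h1
        exact absurd hx0 (hPneg x (by linarith) h1.le).ne
    · rintro rfl
      exact ⟨hRpos.trans hx₀R, hx₀⟩
  have hpos1 : pos P = 1 := by rw [pos, hposset, Set.ncard_singleton]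
  have hderiv2 : ∀ x, deriv (fun y => eval (-y) P) x = -(((d : ℝ) + 1) * eval (-x) p) := by
    intro x
    rw [deriv_comp_neg (fun y => eval y P) x, hPder]
  have hcont2 : Continuous fun y : ℝ => eval (-y) P := P.continuous.comp continuous_neg
  by_cases hodd : Odd d
  · have hmono2 : StrictMonoOn (fun y => eval (-y) P) (Set.Ici R) := by
      refine strictMonoOn_of_deriv_pos (convex_Ici R) hcont2.continuousOn fun x hx => ?_
      rw [interior_Ici] at hx
      rw [hderiv2]
      have h3 := hpR' x (le_of_lt hx)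
      rw [hodd.neg_one_pow] at h3
      nlinarith
    have htop2 : Filter.Tendsto (fun x => eval (-x) P) Filter.atTop Filter.atTop := by
      simp only [hPG]
      refine Filter.tendsto_atTop_add_const_right _ _ ?_
      have h3 : ((-1 : ℝ) ^ (d + 1)) = 1 := (hodd.add_one).neg_one_pow
      simpa [h3] using hbotG
    obtain ⟨x₁, hx₁R, hx₁⟩ : ∃ x₁, R < x₁ ∧ eval (-x₁) P = 0 := by
      obtain ⟨y, hy, hyR⟩ := ((htop2.eventually (Filter.eventually_gt_atTop 0)).and
        (Filter.eventually_gt_atTop R)).exists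
      have := intermediate_value_Icc hyR.le (hcont2.continuousOn (s := Set.Icc R y))
      obtain ⟨x₁, hx₁, h0⟩ := this ⟨(hPneg (-R) le_rfl (by linarith)).le, hy.le⟩
      refine ⟨x₁, lt_of_le_of_ne hx₁.1 ?_, h0⟩
      rintro rfl
      have := hPneg (-R) le_rfl (by linarith)
      change eval (-R) P = 0 at h0
      linarith
    have hnegset : {x : ℝ | x < 0 ∧ P.IsRoot x} = {-x₁} := by
      ext x
      simp only [Set.mem_ofPred_eq, Set.mem_singleton_iff, IsRoot.def]
      constructor
      · rintro ⟨hx, hx0⟩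
        by_cases h1 : R ≤ -x
        · have h4 : -x = x₁ :=
            hmono2.injOn h1 hx₁R.le (by simp only [neg_neg, hx0, hx₁])
          linarith
        · push Not at h1
          exact absurd hx0 (hPneg x (by linarith) (by linarith)).ne
      · rintro rfl
        exact ⟨by linarith, hx₁⟩
    rw [hpos1, neg, hnegset, Set.ncard_singleton, if_pos hodd]
  · have heven : Even d := Nat.not_odd_iff_even.1 hodd
    have hanti2 : StrictAntiOn (fun y => eval (-y) P) (Set.Ici R) := by
      refine strictAntiOn_of_deriv_neg (convex_Ici R) hcont2.continuousOn fun x hx => ?_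
      rw [interior_Ici] at hx
      rw [hderiv2]
      have h3 := hpR' x (le_of_lt hx)
      rw [heven.neg_one_pow, one_mul] at h3
      nlinarith
    have hnegset : {x : ℝ | x < 0 ∧ P.IsRoot x} = ∅ := by
      ext x
      simp only [Set.mem_ofPred_eq, Set.mem_empty_iff_false, iff_false, IsRoot.def]
      rintro ⟨hx, hx0⟩
      by_cases h1 : R ≤ -x
      · have h4 := hanti2.antitoneOn (Set.mem_Ici.2 le_rfl) h1 h1
        simp only [neg_neg] at h4
        have h5 := hPneg (-R) le_rfl (by linarith)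
        linarith
      · push Not at h1
        exact absurd hx0 (hPneg x (by linarith) (by linarith)).ne
    rw [hpos1, neg, hnegset, Set.ncard_empty, if_neg hodd]

theorem claim_succ {d : ℕ} (hd : 0 < d) (h : Claim d) : Claim (d + 1) := by
  obtain ⟨τ, A, hA, B, hB, hsep⟩ := h
  obtain ⟨cA, hcA, hA1, hA2⟩ := exists_const hd A
  obtain ⟨cB, hcB, hB1, hB2⟩ := exists_const hd B
  refine ⟨Fin.cons (1, if Odd d then 1 else 0) τ, lift d cA A, lift_mem hA hcA hA1 hA2,
    lift d cB B, lift_mem hB hcB hB1 hB2, fun S hS hpre hAS hBS => ?_⟩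
  refine hsep (proj d '' S) ?_ (hpre.image _ (continuous_proj d).continuousOn) ?_ ?_
  · rintro _ ⟨b, hb, rfl⟩
    exact proj_mem (hS hb)
  · exact ⟨_, hAS, proj_lift d cA A⟩
  · exact ⟨_, hBS, proj_lift d cB B⟩

theorem claim (d : ℕ) (hd : 3 ≤ d) : Claim d := by
  induction d, hd using Nat.le_induction with
  | base => exact claim_three
  | succ d hd ih => exact claim_succ (by omega) ih

/-- **Theorem.** For every `d ≥ 3` there is a tuple `τ` of root counts for which the set
`R_{4,d}(τ)` is non-empty (so that `τ` is compatible) and not connected. -/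
theorem result (d : ℕ) (hd : 3 ≤ d) :
    ∃ τ : Fin d → ℕ × ℕ, (R4tau d τ).Nonempty ∧ ¬ IsPreconnected (R4tau d τ) := by
  obtain ⟨τ, A, hA, B, hB, hsep⟩ := claim d hd
  exact ⟨τ, ⟨A, hA⟩, fun hpre => hsep _ subset_rfl hpre hA hB⟩

end Pool.Agent.Results.MP_5207c4_ag.Disconnected
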